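import Mathlib

/-!
# No linear bound for the dual irregularity strength

Weighted counting of bipartite graphs for which a fixed vertex labelling has distinct edge sums.
-/

set_option autoImplicit false

namespace Pool.Agent.H43R3.DualIrr

open Finset

open Classical in
/-- the sets on which `σ` is injective -/
noncomputable def good {P : Type*} [Fintype P] {M : ℕ} (σ : P → Fin M) : Finset (Finset P) :=
  Finset.filter (fun E : Finset P => Set.InjOn σ {p | p ∈ E}) Finset.univ

theorem mem_good {P : Type*} [Fintype P] {M : ℕ} {σ : P → Fin M} {E : Finset P} :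
    E ∈ good σ ↔ ∀ p ∈ E, ∀ p' ∈ E, σ p = σ p' → p = p' := by
  classical
  unfold good
  rw [Finset.mem_filter]
  constructor
  · rintro ⟨-, h⟩ p hp p' hp' he
    exact h hp hp' he
  · intro h
    exact ⟨Finset.mem_univ _, fun p hp p' hp' he => h p hp p' hp' he⟩

/-- Weighted count of the sets on which `σ` is injective. -/
theorem sum_injOn_le {P : Type*} [Fintype P] [DecidableEq P] (M : ℕ) (σ : P → Fin M) (x : ℝ)
    (hx : 0 ≤ x) :
    ∑ E ∈ good σ, x ^ E.card ≤
      ∏ s : Fin M, (1 + x * ((univ.filter (fun p => σ p = s)).card : ℝ)) := by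
  classical
  -- choice functions
  let t : Fin M → Finset (Option P) := fun s => insertNone (univ.filter (fun p => σ p = s))
  let w : Option P → ℝ := fun o => o.elim 1 (fun _ => x)
  have hw : ∀ o, 0 ≤ w o := by
    intro o
    cases o with
    | none => simp [w]
    | some a => simpa [w] using hx
  have h1 : ∏ s : Fin M, (1 + x * ((univ.filter (fun p => σ p = s)).card : ℝ)) =
      ∑ q ∈ Fintype.piFinset t, ∏ s, w (q s) := by
    rw [← Finset.prod_univ_sum]
    refine Finset.prod_congr rfl fun s _ => ?_
    simp only [t, w, Finset.sum_insertNone]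
    simp [mul_comm]
  let q : Finset P → (Fin M → Option P) := fun E s =>
    if h : ∃ p ∈ E, σ p = s then some h.choose else none
  have hq_some : ∀ (E : Finset P) (s : Fin M) (p : P), q E s = some p → p ∈ E ∧ σ p = s := by
    intro E s p h
    by_cases hex : ∃ p ∈ E, σ p = s
    · simp only [q, dif_pos hex, Option.some.injEq] at h
      have := hex.choose_spec
      rw [h] at this
      exact this
    · simp only [q, dif_neg hex] at h
      cases h
  have hq_of : ∀ (E : Finset P), E ∈ good σ → ∀ p ∈ E, q E (σ p) = some p := by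
    intro E hE p hp
    have hex : ∃ p' ∈ E, σ p' = σ p := ⟨p, hp, rfl⟩
    simp only [q, dif_pos hex, Option.some.injEq]
    exact mem_good.1 hE _ hex.choose_spec.1 _ hp hex.choose_spec.2
  have hwt : ∀ E : Finset P, E ∈ good σ → ∏ s, w (q E s) = x ^ E.card := by
    intro E hE
    have h2 : ∀ s, w (q E s) = if s ∈ E.image σ then x else 1 := by
      intro s
      by_cases hs : s ∈ E.image σ
      · rw [if_pos hs]
        obtain ⟨p, hp, rfl⟩ := Finset.mem_image.1 hs
        rw [hq_of E hE p hp]
        simp [w]
      · rw [if_neg hs]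
        have : ¬ ∃ p ∈ E, σ p = s := by
          rintro ⟨p, hp, h⟩
          exact hs (Finset.mem_image.2 ⟨p, hp, h⟩)
        simp only [q, dif_neg this]
        simp [w]
    rw [Finset.prod_congr rfl (fun s _ => h2 s), Finset.prod_ite_mem]
    simp only [Finset.univ_inter, Finset.prod_const]
    rw [Finset.card_image_of_injOn]
    intro p hp p' hp' h
    exact mem_good.1 hE p (by exact_mod_cast hp) p' (by exact_mod_cast hp') h
  have hinj : ∀ E ∈ good σ, ∀ E' ∈ good σ, q E = q E' → E = E' := by
    intro E hE E' hE' h
    ext p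
    constructor
    · intro hp
      have := hq_of E hE p hp
      rw [h] at this
      exact (hq_some _ _ _ this).1
    · intro hp
      have := hq_of E' hE' p hp
      rw [← h] at this
      exact (hq_some _ _ _ this).1
  rw [h1]
  calc ∑ E ∈ good σ, x ^ E.card
      = ∑ E ∈ good σ, ∏ s, w (q E s) := by
        refine Finset.sum_congr rfl fun E hE => ?_
        rw [hwt E hE]
    _ = ∑ r ∈ (good σ).image q, ∏ s, w (r s) := by
        rw [Finset.sum_image hinj]
    _ ≤ ∑ r ∈ Fintype.piFinset t, ∏ s, w (r s) := by
        refine Finset.sum_le_sum_of_subset_of_nonneg ?_ ?_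
        · intro r hr
          obtain ⟨E, hE, rfl⟩ := Finset.mem_image.1 hr
          rw [Fintype.mem_piFinset]
          intro s
          simp only [t]
          rw [Finset.mem_insertNone]
          intro p hp
          have := hq_some E s p hp
          simp [this.2]
        · intro r _ _
          exact Finset.prod_nonneg fun s _ => hw _

/-- AM-GM in the form needed. -/
theorem prod_le_pow {M : ℕ} (hM : 0 < M) (a : Fin M → ℝ) (ha : ∀ s, 0 ≤ a s) :
    ∏ s, (1 + a s) ≤ (1 + (∑ s, a s) / M) ^ M := by
  have hMr : (0 : ℝ) < M := by exact_mod_cast hM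
  set y : ℝ := (∑ s, a s) / M with hy
  have hy0 : 0 ≤ y := div_nonneg (Finset.sum_nonneg fun s _ => ha s) hMr.le
  have h1y : 0 < 1 + y := by linarith
  have key : ∀ s, 1 + a s ≤ (1 + y) * Real.exp ((a s - y) / (1 + y)) := by
    intro s
    have h2 := Real.add_one_le_exp ((a s - y) / (1 + y))
    have h3 : 1 + a s = (1 + y) * ((a s - y) / (1 + y) + 1) := by
      field_simp
      ring
    rw [h3]
    exact mul_le_mul_of_nonneg_left h2 h1y.le
  calc ∏ s, (1 + a s) ≤ ∏ s, ((1 + y) * Real.exp ((a s - y) / (1 + y))) :=
        Finset.prod_le_prod (fun s _ => by have := ha s; linarith) (fun s _ => key s)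
    _ = (1 + y) ^ M * Real.exp (∑ s, (a s - y) / (1 + y)) := by
        rw [Finset.prod_mul_distrib, Real.exp_sum]
        simp
    _ = (1 + y) ^ M := by
        have : ∑ s, (a s - y) / (1 + y) = 0 := by
          rw [← Finset.sum_div, Finset.sum_sub_distrib]
          simp only [Finset.sum_const, Finset.card_univ, Fintype.card_fin, nsmul_eq_mul]
          rw [hy]
          have : (∑ s, a s) - (M : ℝ) * ((∑ s, a s) / M) = 0 := by
            field_simp
            ring
          rw [this, zero_div]
        rw [this, Real.exp_zero, mul_one]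

/-- Weighted count of the good sets, uniform bound. -/
theorem good_weight_le {P : Type*} [Fintype P] [DecidableEq P] {M : ℕ} (hM : 0 < M)
    (σ : P → Fin M) (x : ℝ) (hx : 0 ≤ x) :
    ∑ E ∈ good σ, x ^ E.card ≤ (1 + x * (Fintype.card P : ℝ) / M) ^ M := by
  refine (sum_injOn_le M σ x hx).trans ?_
  refine (prod_le_pow hM _ (fun s => mul_nonneg hx (Nat.cast_nonneg _))).trans_eq ?_
  rw [← Finset.mul_sum, ← Nat.cast_sum, ← Finset.card_eq_sum_card_fiberwise (f := σ)
    (t := Finset.univ) (fun _ _ => by simp)]
  rfl

end Pool.Agent.H43R3.DualIrr
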