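import Pool.Agent.H43R3.DualIrr

set_option autoImplicit false

namespace Pool.Agent.H43R3.DualIrr

open Finset Filter Topology

/-- The bipartite graph with edge set `E`. -/
def bip {n : ℕ} (E : Finset (Fin n × Fin n)) : SimpleGraph (Fin n ⊕ Fin n) where
  Adj u v := match u, v with
    | Sum.inl i, Sum.inr j => (i, j) ∈ E
    | Sum.inr j, Sum.inl i => (i, j) ∈ E
    | _, _ => False
  symm := ⟨by
    rintro (i | i) (j | j) h <;> exact h⟩
  loopless := ⟨by
    rintro (i | i) h <;> simp at h⟩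

theorem bip_adj {n : ℕ} (E : Finset (Fin n × Fin n)) (i j : Fin n) :
    (bip E).Adj (Sum.inl i) (Sum.inr j) ↔ (i, j) ∈ E := Iff.rfl

theorem card_edgeSet_le {n : ℕ} (E : Finset (Fin n × Fin n)) :
    Nat.card (bip E).edgeSet ≤ E.card := by
  classical
  have hsub : (bip E).edgeSet ⊆
      ((E.image (fun p => s((Sum.inl p.1 : Fin n ⊕ Fin n), (Sum.inr p.2 : Fin n ⊕ Fin n)))
        : Finset (Sym2 (Fin n ⊕ Fin n))) : Set (Sym2 (Fin n ⊕ Fin n))) := by
    intro e he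
    induction e with
    | _ u v =>
      rw [SimpleGraph.mem_edgeSet] at he
      simp only [Finset.coe_image, Set.mem_image]
      rcases u with i | i <;> rcases v with j | j
      · exact he.elim
      · exact ⟨(i, j), he, rfl⟩
      · exact ⟨(j, i), he, Sym2.eq_swap⟩
      · exact he.elim
  calc Nat.card (bip E).edgeSet = (bip E).edgeSet.ncard := rfl
    _ ≤ ((E.image (fun p => s((Sum.inl p.1 : Fin n ⊕ Fin n), (Sum.inr p.2 : Fin n ⊕ Fin n)))
        : Finset (Sym2 (Fin n ⊕ Fin n))) : Set (Sym2 (Fin n ⊕ Fin n))).ncard :=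
        Set.ncard_le_ncard hsub (Finset.finite_toSet _)
    _ ≤ E.card := by
        rw [Set.ncard_coe_finset]
        exact Finset.card_image_le

theorem card_edgeSet_pos {n : ℕ} {E : Finset (Fin n × Fin n)} (hE : E.Nonempty) :
    0 < Nat.card (bip E).edgeSet := by
  obtain ⟨⟨i, j⟩, h⟩ := hE
  have : Nonempty (bip E).edgeSet := ⟨⟨s(Sum.inl i, Sum.inr j), h⟩⟩
  exact Nat.card_pos

/-- sum map of a labelling -/
def sg {n N M : ℕ} (hM : 2 * N ≤ M) (F : Fin n ⊕ Fin n → Fin N) (p : Fin n × Fin n) : Fin M :=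
  ⟨(F (Sum.inl p.1)).val + (F (Sum.inr p.2)).val, by
    have h1 := (F (Sum.inl p.1)).isLt
    have h2 := (F (Sum.inr p.2)).isLt
    omega⟩

/-- the weight inequality obtained from labellings of all small graphs -/
theorem small_weight {n N M m₀ : ℕ} (hM : 2 * N ≤ M) (hN : 0 < N) (x : ℝ) (hx : 0 ≤ x)
    (hcov : ∀ E : Finset (Fin n × Fin n), E.card ≤ m₀ → E.Nonempty →
      ∃ F : Fin n ⊕ Fin n → Fin N, E ∈ good (sg hM F)) :
    ∑ E ∈ (univ : Finset (Finset (Fin n × Fin n))).filter (fun E => E.card ≤ m₀), x ^ E.card ≤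
      (N : ℝ) ^ (2 * n) * (1 + x * ((n : ℝ) * n) / M) ^ M := by
  classical
  have hM0 : 0 < M := by omega
  have hcov' : ∀ E : Finset (Fin n × Fin n), E.card ≤ m₀ →
      ∃ F : Fin n ⊕ Fin n → Fin N, E ∈ good (sg hM F) := by
    intro E hE
    rcases E.eq_empty_or_nonempty with rfl | hne
    · exact ⟨fun _ => ⟨0, hN⟩, mem_good.2 (by simp)⟩
    · exact hcov E hE hne
  calc ∑ E ∈ (univ : Finset (Finset (Fin n × Fin n))).filter (fun E => E.card ≤ m₀), x ^ E.card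
      ≤ ∑ E ∈ (univ : Finset (Finset (Fin n × Fin n))).filter (fun E => E.card ≤ m₀),
          ∑ F : Fin n ⊕ Fin n → Fin N, (if E ∈ good (sg hM F) then x ^ E.card else 0) := by
        refine Finset.sum_le_sum fun E hE => ?_
        obtain ⟨F, hF⟩ := hcov' E (Finset.mem_filter.1 hE).2
        calc x ^ E.card = (if E ∈ good (sg hM F) then x ^ E.card else 0) := by rw [if_pos hF]
          _ ≤ _ := Finset.single_le_sum
            (f := fun F : Fin n ⊕ Fin n → Fin N => if E ∈ good (sg hM F) then x ^ E.card else 0)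
            (fun F _ => by split_ifs <;> positivity) (Finset.mem_univ F)
    _ ≤ ∑ E : Finset (Fin n × Fin n),
          ∑ F : Fin n ⊕ Fin n → Fin N, (if E ∈ good (sg hM F) then x ^ E.card else 0) := by
        refine Finset.sum_le_sum_of_subset_of_nonneg (Finset.filter_subset _ _) ?_
        intro E _ _
        exact Finset.sum_nonneg fun F _ => by split_ifs <;> positivity
    _ = ∑ F : Fin n ⊕ Fin n → Fin N, ∑ E ∈ good (sg hM F), x ^ E.card := by
        rw [Finset.sum_comm]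
        refine Finset.sum_congr rfl fun F _ => ?_
        rw [← Finset.sum_filter]
        refine Finset.sum_congr ?_ fun _ _ => rfl
        ext E
        simp
    _ ≤ ∑ F : Fin n ⊕ Fin n → Fin N,
          (1 + x * (Fintype.card (Fin n × Fin n) : ℝ) / M) ^ M :=
        Finset.sum_le_sum fun F _ => good_weight_le hM0 _ x hx
    _ = _ := by
        simp [Fintype.card_sum, Fintype.card_prod, two_mul]

/-- large sets have small weight -/
theorem large_weight {P : Type*} [Fintype P] [DecidableEq P] (m₀ : ℕ) (x : ℝ) (hx : 0 ≤ x) :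
    ∑ E ∈ (univ : Finset (Finset P)).filter (fun E => ¬ E.card ≤ m₀), x ^ E.card ≤
      (1 + x) ^ (2 * Fintype.card P) / 2 ^ m₀ := by
  have h2 : (0 : ℝ) < 2 ^ m₀ := by positivity
  calc ∑ E ∈ (univ : Finset (Finset P)).filter (fun E => ¬ E.card ≤ m₀), x ^ E.card
      ≤ ∑ E ∈ (univ : Finset (Finset P)).filter (fun E => ¬ E.card ≤ m₀),
          (2 * x) ^ E.card / 2 ^ m₀ := by
        refine Finset.sum_le_sum fun E hE => ?_
        have hE' : m₀ ≤ E.card := (not_le.1 (Finset.mem_filter.1 hE).2).le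
        rw [le_div_iff₀ h2, mul_pow, mul_comm]
        exact mul_le_mul_of_nonneg_right (pow_le_pow_right₀ (by norm_num) hE') (by positivity)
    _ ≤ ∑ E : Finset P, (2 * x) ^ E.card / 2 ^ m₀ := by
        refine Finset.sum_le_sum_of_subset_of_nonneg (Finset.filter_subset _ _) ?_
        intro E _ _
        positivity
    _ = (2 * x + 1) ^ Fintype.card P / 2 ^ m₀ := by
        rw [← Finset.sum_div, ← Fintype.sum_pow_mul_eq_add_pow]
        simp
    _ ≤ (1 + x) ^ (2 * Fintype.card P) / 2 ^ m₀ := by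
        rw [pow_mul]
        refine div_le_div_of_nonneg_right ?_ h2.le
        refine pow_le_pow_left₀ (by positivity) ?_ _
        nlinarith

theorem total_weight {P : Type*} [Fintype P] [DecidableEq P] (x : ℝ) :
    ∑ E : Finset P, x ^ E.card = (1 + x) ^ Fintype.card P := by
  rw [add_comm 1 x, ← Fintype.sum_pow_mul_eq_add_pow]
  simp

/-- numerical input -/
theorem numeric (C : ℕ) (hC : 0 < C) : ∃ k : ℕ, 0 < k ∧
    2 * ((3 * C * k ^ 3 : ℕ) : ℝ) ^ (2 * k ^ 2) * ((1 + 1 / (7 * (C : ℝ))) ^ (7 * C)) ^ (k ^ 3) <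
      ((1 + 1 / (k : ℝ)) ^ k) ^ (k ^ 3) := by
  have hCr : (0 : ℝ) < C := by exact_mod_cast hC
  set β : ℝ := (1 + 1 / (7 * (C : ℝ))) ^ (7 * C) with hβ
  have hβ0 : 0 < β := by positivity
  have hβe : β < Real.exp 1 := by
    have h1 : 1 + 1 / (7 * (C : ℝ)) < Real.exp (1 / (7 * (C : ℝ))) := by
      have := Real.add_one_lt_exp (x := 1 / (7 * (C : ℝ))) (by positivity)
      linarith
    have h2 : β < Real.exp (1 / (7 * (C : ℝ))) ^ (7 * C) := by
      rw [hβ]
      exact pow_lt_pow_left₀ h1 (by positivity) (by omega)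
    rw [← Real.exp_nat_mul] at h2
    have h3 : ((7 * C : ℕ) : ℝ) * (1 / (7 * (C : ℝ))) = 1 := by
      push_cast
      field_simp
    rwa [h3] at h2
  -- θ with β * θ < e, θ = a ^ 2, a > 1
  obtain ⟨γ, hγ1, hγ2⟩ := exists_between hβe
  have hθ : 1 < γ / β := by rwa [one_lt_div hβ0]
  set a : ℝ := Real.sqrt (γ / β) with ha
  have ha1 : 1 < a := by
    rw [ha, Real.lt_sqrt (by norm_num)]
    simpa using hθ
  have ha2 : a ^ 2 = γ / β := by
    rw [ha, Real.sq_sqrt (by linarith)]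
  have ht1 : ∀ᶠ k : ℕ in atTop, γ < (1 + 1 / (k : ℝ)) ^ k :=
    (Real.tendsto_one_add_div_pow_exp 1).eventually_const_lt hγ2
  have ht2 : ∀ᶠ k : ℕ in atTop, (k : ℝ) ^ 3 / a ^ k < 1 / (6 * C) := by
    have := tendsto_pow_const_div_const_pow_of_one_lt 3 ha1
    exact this.eventually_lt_const (by positivity)
  obtain ⟨k, hk1, hk2, hk0⟩ := (ht1.and (ht2.and (eventually_gt_atTop 0))).exists
  refine ⟨k, hk0, ?_⟩
  have hkr : (0 : ℝ) < k := by exact_mod_cast hk0
  have hk1' : (1 : ℝ) ≤ k := by exact_mod_cast hk0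
  have hak : 0 < a ^ k := by positivity
  have h3 : 2 * ((3 * C * k ^ 3 : ℕ) : ℝ) < a ^ k := by
    rw [div_lt_div_iff₀ hak (by positivity)] at hk2
    push_cast
    linarith
  have hp : 0 < 2 * k ^ 2 := by positivity
  have h4 : 2 * ((3 * C * k ^ 3 : ℕ) : ℝ) ^ (2 * k ^ 2) ≤
      (2 * ((3 * C * k ^ 3 : ℕ) : ℝ)) ^ (2 * k ^ 2) := by
    rw [mul_pow]
    refine mul_le_mul_of_nonneg_right ?_ (by positivity)
    calc (2 : ℝ) = 2 ^ 1 := by norm_num
      _ ≤ 2 ^ (2 * k ^ 2) := pow_le_pow_right₀ (by norm_num) hp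
  have h5 : (2 * ((3 * C * k ^ 3 : ℕ) : ℝ)) ^ (2 * k ^ 2) < (a ^ k) ^ (2 * k ^ 2) :=
    pow_lt_pow_left₀ h3 (by positivity) (by omega)
  have h6 : (a ^ k) ^ (2 * k ^ 2) = (γ / β) ^ (k ^ 3) := by
    rw [← ha2, ← pow_mul, ← pow_mul]
    congr 1
    ring
  have hβk : 0 < β ^ (k ^ 3) := by positivity
  calc 2 * ((3 * C * k ^ 3 : ℕ) : ℝ) ^ (2 * k ^ 2) * β ^ (k ^ 3)
      < (γ / β) ^ (k ^ 3) * β ^ (k ^ 3) :=
        mul_lt_mul_of_pos_right (h6 ▸ (h4.trans_lt h5)) hβk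
    _ = γ ^ (k ^ 3) := by
        rw [← mul_pow, div_mul_cancel₀ _ hβ0.ne']
    _ ≤ ((1 + 1 / (k : ℝ)) ^ k) ^ (k ^ 3) :=
        pow_le_pow_left₀ (by linarith) hk1.le _

theorem main : ¬ (∃ c : ℕ, ∀ (V : Type) [Fintype V] (G : SimpleGraph V),
      0 < Nat.card G.edgeSet →
      ∃ f : V → ℕ, (∀ v, 0 < f v) ∧ (∀ v, f v ≤ c * Nat.card G.edgeSet) ∧
        ∀ a b x y : V, G.Adj a b → G.Adj x y → f a + f b = f x + f y →
          s(a, b) = s(x, y)) := by
  classical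
  rintro ⟨c, h⟩
  obtain ⟨k, hk, hnum⟩ := numeric (c + 1) (Nat.succ_pos c)
  set C := c + 1 with hC
  have hC0 : 0 < C := Nat.succ_pos c
  set n := k ^ 2 with hn
  set N := 3 * C * k ^ 3 with hN
  set M := 7 * C * k ^ 3 with hMdef
  set m₀ := 3 * k ^ 3 with hm₀
  have hN0 : 0 < N := by positivity
  have hM : 2 * N ≤ M := by
    rw [hN, hMdef]; nlinarith [Nat.zero_le (C * k ^ 3)]
  have hkr : (0 : ℝ) < k := by exact_mod_cast hk
  have hCr : (0 : ℝ) < C := by exact_mod_cast hC0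
  set x : ℝ := 1 / (k : ℝ) with hx
  have hx0 : 0 ≤ x := by positivity
  -- labellings
  have hcov : ∀ E : Finset (Fin n × Fin n), E.card ≤ m₀ → E.Nonempty →
      ∃ F : Fin n ⊕ Fin n → Fin N, E ∈ good (sg hM F) := by
    intro E hE hne
    obtain ⟨f, hf1, hf2, hf3⟩ := h (Fin n ⊕ Fin n) (bip E) (card_edgeSet_pos hne)
    have hle : ∀ v, f v ≤ N := by
      intro v
      calc f v ≤ c * Nat.card (bip E).edgeSet := hf2 v
        _ ≤ C * m₀ := Nat.mul_le_mul (by omega) ((card_edgeSet_le E).trans hE)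
        _ = N := by rw [hN, hm₀]; ring
    refine ⟨fun v => ⟨f v - 1, by have := hf1 v; have := hle v; omega⟩, mem_good.2 ?_⟩
    rintro ⟨i, j⟩ hp ⟨i', j'⟩ hp' he
    have he' : (f (Sum.inl i) - 1) + (f (Sum.inr j) - 1) =
        (f (Sum.inl i') - 1) + (f (Sum.inr j') - 1) := by
      simpa [sg] using he
    have h1 := hf1 (Sum.inl i)
    have h2 := hf1 (Sum.inr j)
    have h3 := hf1 (Sum.inl i')
    have h4 := hf1 (Sum.inr j')
    have h5 := hf3 (Sum.inl i) (Sum.inr j) (Sum.inl i') (Sum.inr j') hp hp' (by omega)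
    rw [Sym2.eq_iff] at h5
    rcases h5 with ⟨h5, h6⟩ | ⟨h5, h6⟩
    · rw [Sum.inl.inj h5, Sum.inr.inj h6]
    · cases h5
  have hsmall := small_weight hM hN0 x hx0 hcov
  have hlarge := large_weight (P := Fin n × Fin n) m₀ x hx0
  have htot := total_weight (P := Fin n × Fin n) x
  have hsplit := Finset.sum_filter_add_sum_filter_not (univ : Finset (Finset (Fin n × Fin n)))
    (fun E => E.card ≤ m₀) (fun E => x ^ E.card)
  have hcard : Fintype.card (Fin n × Fin n) = k ^ 4 := by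
    simp only [Fintype.card_prod, Fintype.card_fin, hn]
    ring
  rw [hcard] at hlarge htot
  -- T = (1+x)^(k^4)
  have hT : (1 + x) ^ (k ^ 4) = ((1 + 1 / (k : ℝ)) ^ k) ^ (k ^ 3) := by
    rw [← pow_mul, hx]
    congr 1
    ring
  have hTpos : 0 < (1 + x) ^ (k ^ 4) := by positivity
  have hTexp : (1 + x) ^ (k ^ 4) ≤ 4 ^ (k ^ 3) := by
    rw [hT]
    refine pow_le_pow_left₀ (by positivity) ?_ _
    have h1 : (1 + 1 / (k : ℝ)) ≤ Real.exp (1 / (k : ℝ)) := by
      have := Real.add_one_le_exp (1 / (k : ℝ))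
      linarith
    calc (1 + 1 / (k : ℝ)) ^ k ≤ Real.exp (1 / (k : ℝ)) ^ k :=
          pow_le_pow_left₀ (by positivity) h1 _
      _ = Real.exp 1 := by
          rw [← Real.exp_nat_mul]
          congr 1
          field_simp
      _ ≤ 4 := by
          have := Real.exp_one_lt_d9
          linarith
  have hhalf : (1 + x) ^ (2 * k ^ 4) / 2 ^ m₀ ≤ (1 + x) ^ (k ^ 4) / 2 := by
    have h8 : (2 : ℝ) ^ m₀ = 8 ^ (k ^ 3) := by
      rw [hm₀, pow_mul]; norm_num
    have h2k : (2 : ℝ) ≤ 2 ^ (k ^ 3) := by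
      calc (2 : ℝ) = 2 ^ 1 := by norm_num
        _ ≤ 2 ^ (k ^ 3) := pow_le_pow_right₀ (by norm_num) (Nat.one_le_pow _ _ hk)
    have h9 : (8 : ℝ) ^ (k ^ 3) = 4 ^ (k ^ 3) * 2 ^ (k ^ 3) := by
      rw [← mul_pow]; norm_num
    rw [h8, two_mul, pow_add, div_le_div_iff₀ (by positivity) (by norm_num), h9]
    have h10 : 0 < (4 : ℝ) ^ (k ^ 3) := by positivity
    have h11 : (1 + x) ^ k ^ 4 * 2 ≤ 4 ^ (k ^ 3) * 2 ^ (k ^ 3) :=
      mul_le_mul hTexp h2k (by norm_num) h10.le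
    calc (1 + x) ^ k ^ 4 * (1 + x) ^ k ^ 4 * 2 = (1 + x) ^ k ^ 4 * ((1 + x) ^ k ^ 4 * 2) := by ring
      _ ≤ (1 + x) ^ k ^ 4 * (4 ^ k ^ 3 * 2 ^ k ^ 3) := mul_le_mul_of_nonneg_left h11 hTpos.le
  have hxR : x * ((n : ℝ) * n) / M = 1 / (7 * (C : ℝ)) := by
    rw [hx, hn, hMdef]
    push_cast
    field_simp
  have hpow : (1 + x * ((n : ℝ) * n) / M) ^ M = ((1 + 1 / (7 * (C : ℝ))) ^ (7 * C)) ^ (k ^ 3) := by
    rw [hxR, ← pow_mul]
  rw [hpow] at hsmall
  have hfin : (1 + x) ^ (k ^ 4) ≤ 2 * (N : ℝ) ^ (2 * n) *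
      ((1 + 1 / (7 * (C : ℝ))) ^ (7 * C)) ^ (k ^ 3) := by
    rw [htot] at hsplit
    linarith
  rw [hT] at hfin
  exact absurd hnum (not_lt.2 hfin)

end Pool.Agent.H43R3.DualIrr
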